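import Pool.Agent.helper62.VN.SpecE

/-!
# MP_07c750, project VN, row NPL: pairs and their differences are approximate solutions of the linear system
-/

set_option autoImplicit false

open scoped MatrixGroups ContDiff Topology UpperHalfPlane
open UpperHalfPlane MeasureTheory Filter Set

namespace Pool.Agent.VNE

open Pool.Agent.RS Pool.Agent.VQE

noncomputable section

theorem NPL_bd {K : ℝ} (hK : 1 ≤ K) {X : Fd} (hX : HF K X) (g : SL(2, ℝ)) :
    1 / K ^ 2 ≤ X.p g ^ 2 ∧ X.p g ^ 2 ≤ K ^ 2 ∧ 1 / K ^ 2 ≤ X.κ g ∧ X.κ g ≤ K ^ 2 := by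
  obtain ⟨h1, h2⟩ := hX.pb g
  obtain ⟨h3, h4⟩ := hX.kb g
  have hK0 : 0 < K := by linarith
  have h0 : 0 < 1 / K := by positivity
  have h5 : 1 / K ≤ 1 := by
    rw [div_le_one hK0]
    exact hK
  have h6 : 1 / K ^ 2 = (1 / K) ^ 2 := by rw [div_pow, one_pow]
  rw [h6]
  refine ⟨pow_le_pow_left₀ h0.le h1 2, pow_le_pow_left₀ (h0.le.trans h1) h2 2, ?_, ?_⟩
  · nlinarith
  · nlinarith

theorem NPL_proof (h1 : NCH_stmt) : NPL_stmt := by
  intro K hK
  have hK0 : 0 < K := by linarith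
  refine ⟨K, 1 / (16 * K ^ 3), hK, by positivity, ?_⟩
  intro ε T X g J1 W1 J2 W2 hε hX hP1 hP2
  obtain ⟨C, -, hC⟩ := h1 K hK
  have h0 := (hC X hX).2.2.1
  have hKe : 1 / (16 * K ^ 3) ≤ 1 / K := by
    apply one_div_le_one_div_of_le hK0
    have : 1 ≤ K ^ 2 := one_le_pow₀ hK
    nlinarith
  have hsm : K * (2 * ε) ≤ 1 / (8 * K ^ 2) := by
    have e1 : K * (2 * (1 / (16 * K ^ 3))) = 1 / (8 * K ^ 2) := by
      field_simp
      norm_num
    rw [← e1]
    gcongr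
  have hb1 : ∀ t ∈ Icc (0 : ℝ) T, |J1 t| + |W1 t| ≤ 1 / K := fun t ht => (hP1.bd t ht).trans (hε.trans hKe)
  have hb2 : ∀ t ∈ Icc (0 : ℝ) T, |J2 t| + |W2 t| ≤ 1 / K := fun t ht => (hP2.bd t ht).trans (hε.trans hKe)
  constructor
  · refine ⟨fun t ht => ?_, fun t ht => ?_⟩
    · obtain ⟨a1, a2, a3, a4⟩ := NPL_bd hK hX (X.f t g)
      have a5 := hP1.bd t ht
      refine ⟨a1, a2, a3, a4, by positivity, ?_⟩
      have a6 : K * (|J1 t| + |W1 t|) ≤ K * (2 * ε) := by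
        have : 0 ≤ |J1 t| + |W1 t| := by positivity
        gcongr
        linarith
      linarith
    · refine ⟨_, _, hP1.dJ t ht, hP1.dW t ht, ?_, ?_⟩
      · have a1 := (hX.f1 (X.f t g) (J1 t) (W1 t) 0 0 (hb1 t ht) (by simp; positivity)).1
        rw [(h0 _).1] at a1
        simp only [sub_zero, abs_zero, add_zero] at a1
        exact a1
      · have a1 := (hX.f1 (X.f t g) (J1 t) (W1 t) 0 0 (hb1 t ht) (by simp; positivity)).2
        rw [(h0 _).2] at a1
        simp only [sub_zero, abs_zero, add_zero] at a1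
        exact a1
  · refine ⟨fun t ht => ?_, fun t ht => ?_⟩
    · obtain ⟨a1, a2, a3, a4⟩ := NPL_bd hK hX (X.f t g)
      have a5 := hP1.bd t ht
      have a6 := hP2.bd t ht
      refine ⟨a1, a2, a3, a4, by positivity, ?_⟩
      have a7 : K * (|J1 t| + |W1 t| + (|J2 t| + |W2 t|)) ≤ K * (2 * ε) := by
        gcongr
        linarith
      linarith
    · refine ⟨_, _, (hP1.dJ t ht).sub (hP2.dJ t ht), (hP1.dW t ht).sub (hP2.dW t ht), ?_, ?_⟩
      · have a1 := (hX.f1 (X.f t g) (J1 t) (W1 t) (J2 t) (W2 t) (hb1 t ht) (hb2 t ht)).1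
        rw [← add_assoc]
        exact a1
      · have a1 := (hX.f1 (X.f t g) (J1 t) (W1 t) (J2 t) (W2 t) (hb1 t ht) (hb2 t ht)).2
        rw [← add_assoc]
        exact a1

end

end Pool.Agent.VNE
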